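import Pool.Agent.Lib.MP_05cdf2_gt.Z.Full

/-! MP_05cdf2_gt: the homology of the Torelli group of a closed surface of genus `g` is finitely generated in degrees
`k < g - 1`.

By the theorem of Dehn, Nielsen and Baer the mapping class group of the closed oriented surface `Σ_g` is the group of
the orientation preserving outer automorphisms of `π = π_1(Σ_g)`, and these are exactly the classes of the automorphisms
of `π` which are induced by automorphisms of the free group on `a_1, b_1, ..., a_g, b_g` fixing the word
`[a_1, b_1] ... [a_g, b_g]` (every mapping class is represented by a homeomorphism fixing a disc). -/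

set_option autoImplicit false

namespace Pool.Agent.Results.MP_05cdf2_gt.TorelliHomology

open scoped commutatorElement

/-- the free group on `a_i = Sum.inl i` and `b_i = Sum.inr i` -/
abbrev Free (g : ℕ) : Type := FreeGroup (Fin g ⊕ Fin g)

/-- the boundary word `[a_1, b_1] ... [a_g, b_g]` -/
def boundaryWord (g : ℕ) : Free g :=
  ((List.finRange g).map fun i => ⁅(FreeGroup.of (Sum.inl i) : Free g), FreeGroup.of (Sum.inr i)⁆).prod

/-- the fundamental group of the closed oriented surface of genus `g`: the free group modulo the normal closure of the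
boundary word -/
def SurfaceGroup (g : ℕ) : Type := Free g ⧸ Subgroup.normalClosure ({boundaryWord g} : Set (Free g))

instance (g : ℕ) : Group (SurfaceGroup g) :=
  QuotientGroup.Quotient.group (Subgroup.normalClosure ({boundaryWord g} : Set (Free g)))

/-- the projection of the free group to the surface group -/
def proj (g : ℕ) : Free g →* SurfaceGroup g :=
  QuotientGroup.mk' (Subgroup.normalClosure ({boundaryWord g} : Set (Free g)))

/-- the automorphism `α` of the surface group is induced by an automorphism of the free group fixing the boundary word -/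
def IsGeometric {g : ℕ} (α : SurfaceGroup g ≃* SurfaceGroup g) : Prop :=
  ∃ φ : Free g ≃* Free g, φ (boundaryWord g) = boundaryWord g ∧ ∀ w : Free g, α (proj g w) = proj g (φ w)

/-- `α` acts trivially on the first homology -/
def TrivialOnH1 {g : ℕ} (α : SurfaceGroup g ≃* SurfaceGroup g) : Prop :=
  ∀ x : SurfaceGroup g, Abelianization.of (α x) = Abelianization.of x

/-- the inner automorphisms -/
def Inn (G : Type) [Group G] : Subgroup (MulAut G) := (MulAut.conj : G →* MulAut G).range

instance (G : Type) [Group G] : (Inn G).Normal where
  conj_mem := by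
    rintro _ ⟨x, rfl⟩ α
    refine ⟨α x, ?_⟩
    ext y
    simp [MulAut.conj_apply]

/-- the group of outer automorphisms: automorphisms modulo inner automorphisms -/
def Out (G : Type) [Group G] : Type := MulAut G ⧸ Inn G

instance (G : Type) [Group G] : Group (Out G) := QuotientGroup.Quotient.group (Inn G)

/-- the class of an automorphism -/
def cls {G : Type} [Group G] : MulAut G →* Out G := QuotientGroup.mk' (Inn G)

/-- the Torelli group of the closed surface of genus `g`, a subgroup of the outer automorphism group of its fundamental
group: the classes of the geometric automorphisms which act trivially on the first homology -/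
def Torelli (g : ℕ) : Subgroup (Out (SurfaceGroup g)) where
  carrier := {c | ∃ α : MulAut (SurfaceGroup g), IsGeometric α ∧ TrivialOnH1 α ∧ cls α = c}
  one_mem' := ⟨1, ⟨1, rfl, fun _ => rfl⟩, fun _ => rfl, rfl⟩
  mul_mem' := by
    rintro _ _ ⟨α, ⟨φ, h1, h2⟩, h3, rfl⟩ ⟨β, ⟨ψ, k1, k2⟩, k3, rfl⟩
    refine ⟨α * β, ⟨ψ.trans φ, ?_, fun w => ?_⟩, fun x => ?_, rfl⟩
    · rw [MulEquiv.trans_apply, k1, h1]
    · rw [MulAut.mul_apply, k2, h2, MulEquiv.trans_apply]
    · rw [MulAut.mul_apply, h3, k3]
  inv_mem' := by
    rintro _ ⟨α, ⟨φ, h1, h2⟩, h3, rfl⟩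
    refine ⟨α⁻¹, ⟨φ.symm, ?_, fun w => ?_⟩, fun x => ?_, rfl⟩
    · apply φ.injective
      rw [MulEquiv.apply_symm_apply, h1]
    · apply α.injective
      rw [MulAut.apply_inv_self, h2, MulEquiv.apply_symm_apply]
    · rw [← h3 (α⁻¹ x), MulAut.apply_inv_self]

/-- for all `g ≥ 2` and `k < g - 1` the homology group `H_k` of the Torelli group of the closed surface of genus `g`,
with integral coefficients, is finitely generated -/
theorem result : ∀ g : ℕ, 2 ≤ g → ∀ k : ℕ, k < g - 1 →
    Module.Finite ℤ (groupHomology (Rep.trivial ℤ (Torelli g) ℤ) k) := by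
  intro g hg k hk
  exact TorZ.closed g hg k (by omega)

end Pool.Agent.Results.MP_05cdf2_gt.TorelliHomology
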